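import Mathlib

set_option autoImplicit false

open Set Filter Topology BoundedContinuousFunction
open scoped ENNReal InnerProductSpace

namespace Pool.Agent.Results.MP_155d71_an.NoFixedPoint

section Defs

variable (S : Type) [Semigroup S] [TopologicalSpace S] [SeparatelyContinuousMul S]

variable {S} in
/-- Left translate `(ℓ_s f)(t) = f (s t)`. -/
noncomputable def lTrans (s : S) (f : S →ᵇ ℂ) : S →ᵇ ℂ :=
  f.compContinuous ⟨fun t => s * t, SeparatelyContinuousMul.continuous_const_mul⟩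

variable {S} in
/-- `f ∈ LUC(S)`: the map `s ↦ ℓ_s f` is norm continuous. -/
def IsLUC (f : S →ᵇ ℂ) : Prop := Continuous (fun s : S => lTrans s f)

/-- `S` is extremely left amenable: there is a functional `m` on `LUC(S)` (only its values on
`LUC(S)` matter) that is linear, has `‖m‖ ≤ 1` and `m 1 = 1`, is left invariant and
multiplicative. -/
def IsELA : Prop :=
  ∃ m : (S →ᵇ ℂ) → ℂ,
    (∀ f g, IsLUC f → IsLUC g → m (f + g) = m f + m g) ∧
    (∀ (c : ℂ) f, IsLUC f → m (c • f) = c * m f) ∧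
    (∀ f, IsLUC f → ‖m f‖ ≤ ‖f‖) ∧ m 1 = 1 ∧
    (∀ (s : S) f, IsLUC f → m (lTrans s f) = m f) ∧
    ∀ f g, IsLUC f → IsLUC g → m (f * g) = m f * m g

end Defs

/-- The identity map from `E` to `E` with its weak topology. -/
noncomputable def wk (𝕜 : Type) [RCLike 𝕜] {E : Type} [NormedAddCommGroup E] [NormedSpace 𝕜 E]
    (x : E) : WeakSpace 𝕜 E := toWeakSpace 𝕜 E x

/-- The weak topology of `E`, restricted to `C`. -/
@[reducible] noncomputable def weakTop (𝕜 : Type) [RCLike 𝕜] {E : Type} [NormedAddCommGroup E]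
    [NormedSpace 𝕜 E] (C : Set E) : TopologicalSpace C :=
  TopologicalSpace.induced (fun x : C => wk 𝕜 (x : E)) inferInstance

/-- `C` is weakly closed, and `T` is a weakly continuous, norm nonexpansive representation of `S`
on `C` with a relatively weakly compact orbit. -/
def IsGoodRep (𝕜 : Type) [RCLike 𝕜] {E : Type} [NormedAddCommGroup E] [NormedSpace 𝕜 E]
    (C : Set E) {S : Type} [Semigroup S] [TopologicalSpace S] (T : S → C → C) : Prop :=
  IsClosed (wk 𝕜 '' C) ∧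
  (∀ s t x, T (s * t) x = T s (T t x)) ∧
  (∀ s x y, ‖(T s x : E) - T s y‖ ≤ ‖(x : E) - y‖) ∧
  (∀ s, @Continuous C C (weakTop 𝕜 C) (weakTop 𝕜 C) (T s)) ∧
  (∀ x, @Continuous S C _ (weakTop 𝕜 C) (fun s => T s x)) ∧
  ∃ c : C, IsCompact (closure (Set.range (fun s => wk 𝕜 (T s c : E))))

section Example

variable (𝕜 : Type) [RCLike 𝕜]

abbrev H := lp (fun _ : ℕ => 𝕜) 2

variable {𝕜}

lemma two_pos' : 0 < (2 : ℝ≥0∞).toReal := by norm_num

lemma summ (x : H 𝕜) : Summable (fun k => ‖x k‖ ^ (2 : ℝ≥0∞).toReal) :=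
  (lp.memℓp x).summable two_pos'

noncomputable def shiftL (n : ℕ) : H 𝕜 →ₗ[𝕜] H 𝕜 where
  toFun x := ⟨fun k => x (k + n), memℓp_gen ((summable_nat_add_iff n).2 (summ x))⟩
  map_add' _ _ := rfl
  map_smul' _ _ := rfl

lemma shiftL_apply (n : ℕ) (x : H 𝕜) (k : ℕ) : shiftL n x k = x (k + n) := rfl

lemma shiftL_norm (n : ℕ) (x : H 𝕜) : ‖shiftL n x‖ ≤ ‖x‖ := by
  apply lp.norm_le_of_tsum_le two_pos' (norm_nonneg _)
  rw [lp.norm_rpow_eq_tsum two_pos', ← (summ x).sum_add_tsum_nat_add n]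
  simp only [shiftL_apply]
  have : 0 ≤ ∑ i ∈ Finset.range n, ‖x i‖ ^ (2 : ℝ≥0∞).toReal :=
    Finset.sum_nonneg (fun i _ => by positivity)
  linarith

noncomputable def shift (n : ℕ) : H 𝕜 →L[𝕜] H 𝕜 :=
  (shiftL n).mkContinuous 1 (fun x => by simpa using shiftL_norm n x)

lemma shift_apply (n : ℕ) (x : H 𝕜) (k : ℕ) : shift n x k = x (k + n) := rfl

lemma shift_norm (n : ℕ) (x : H 𝕜) : ‖shift n x‖ ≤ ‖x‖ := shiftL_norm n x

lemma shift_shift (m n : ℕ) (x : H 𝕜) : shift m (shift n x) = shift (m + n) x := by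
  ext k
  simp only [shift_apply, add_assoc]

lemma shift_tendsto (x : H 𝕜) : Tendsto (fun n => shift n x) atTop (𝓝 0) := by
  rw [tendsto_zero_iff_norm_tendsto_zero]
  have h1 := tendsto_sum_nat_add (fun k => ‖x k‖ ^ (2 : ℝ≥0∞).toReal)
  have h2 : Tendsto (fun n => (∑' k, ‖x (k + n)‖ ^ (2 : ℝ≥0∞).toReal) ^ (1 / (2 : ℝ≥0∞).toReal))
      atTop (𝓝 (0 ^ (1 / (2 : ℝ≥0∞).toReal))) :=
    h1.rpow_const (Or.inr (by norm_num))
  rw [Real.zero_rpow (by norm_num)] at h2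
  refine h2.congr (fun n => ?_)
  rw [lp.norm_eq_tsum_rpow two_pos']
  rfl

lemma shift_surj (n : ℕ) (x : H 𝕜) : ∃ y : H 𝕜, ‖y‖ ≤ ‖x‖ ∧ shift n y = x := by
  let g : ℕ → 𝕜 := fun k => if k < n then 0 else x (k - n)
  have hg : ∀ k, g (k + n) = x k := fun k => by simp [g]
  have hs : HasSum (fun k => ‖g k‖ ^ (2 : ℝ≥0∞).toReal) (‖x‖ ^ (2 : ℝ≥0∞).toReal) := by
    rw [← hasSum_nat_add_iff' n]
    have : ∑ i ∈ Finset.range n, ‖g i‖ ^ (2 : ℝ≥0∞).toReal = 0 := by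
      apply Finset.sum_eq_zero
      intro i hi
      simp [g, Finset.mem_range.1 hi]
    rw [this, sub_zero]
    simp only [hg]
    exact lp.hasSum_norm two_pos' x
  refine ⟨⟨g, memℓp_gen hs.summable⟩, ?_, ?_⟩
  · exact lp.norm_le_of_tsum_le two_pos' (norm_nonneg _) hs.tsum_eq.le
  · ext k
    exact hg k

lemma reflexive (φ : StrongDual 𝕜 (StrongDual 𝕜 (H 𝕜))) :
    ∃ x : H 𝕜, NormedSpace.inclusionInDoubleDual 𝕜 (H 𝕜) x = φ := by
  let ψ : H 𝕜 →L[𝕜] 𝕜 :=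
    { toFun := fun y => (starRingEnd 𝕜) (φ (InnerProductSpace.toDual 𝕜 (H 𝕜) y))
      map_add' := fun a b => by simp
      map_smul' := fun c a => by rw [LinearIsometryEquiv.map_smulₛₗ]; simp
      cont := RCLike.continuous_conj.comp
        (φ.continuous.comp (InnerProductSpace.toDual 𝕜 (H 𝕜)).continuous) }
  refine ⟨(InnerProductSpace.toDual 𝕜 (H 𝕜)).symm ψ, ?_⟩
  ext f
  obtain ⟨y, rfl⟩ := (InnerProductSpace.toDual 𝕜 (H 𝕜)).surjective f
  rw [NormedSpace.dual_def, InnerProductSpace.toDual_apply_apply, ← inner_conj_symm,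
    InnerProductSpace.toDual_symm_apply]
  simp [ψ]

lemma weak_compact (A : Set (H 𝕜)) (hA : A ⊆ Metric.closedBall 0 1) :
    IsCompact (closure (toWeakSpace 𝕜 (H 𝕜) '' A)) := by
  apply NormedSpace.isCompact_closure_of_isBounded
  · rw [(toWeakSpace 𝕜 (H 𝕜)).injective.preimage_image]
    exact Metric.isBounded_closedBall.subset hA
  · intro φ _
    obtain ⟨x, hx⟩ := reflexive (WeakDual.toStrongDual φ)
    refine ⟨toWeakSpace 𝕜 (H 𝕜) x, ?_⟩
    apply WeakDual.toStrongDual.injective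
    exact hx

lemma weak_closed : IsClosed (toWeakSpace 𝕜 (H 𝕜) '' Metric.closedBall 0 1) := by
  have : toWeakSpace 𝕜 (H 𝕜) '' Metric.closedBall 0 1 = ⋂ y : H 𝕜,
      {x : WeakSpace 𝕜 (H 𝕜) | ‖(topDualPairing 𝕜 (H 𝕜)).flip x (innerSL 𝕜 y)‖ ≤ ‖y‖} := by
    ext x
    simp only [mem_iInter, mem_ofPred_eq]
    constructor
    · rintro ⟨z, hz, rfl⟩ y
      have hz' : ‖z‖ ≤ 1 := by simpa using hz
      change ‖⟪y, z⟫_𝕜‖ ≤ ‖y‖
      refine (norm_inner_le_norm y z).trans ?_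
      nlinarith [norm_nonneg y]
    · intro h
      refine ⟨(toWeakSpace 𝕜 (H 𝕜)).symm x, ?_, rfl⟩
      set z : H 𝕜 := (toWeakSpace 𝕜 (H 𝕜)).symm x
      have h1 : ‖⟪z, z⟫_𝕜‖ ≤ ‖z‖ := h z
      rw [inner_self_eq_norm_sq_to_K] at h1
      simp only [norm_pow, norm_algebraMap', norm_norm] at h1
      simp only [Metric.mem_closedBall, dist_zero_right]
      nlinarith [norm_nonneg z]
  rw [this]
  refine isClosed_iInter (fun y => isClosed_le ?_ continuous_const)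
  exact (WeakBilin.eval_continuous (topDualPairing 𝕜 (H 𝕜)).flip (innerSL 𝕜 y)).norm

variable (𝕜)

abbrev B := Metric.closedBall (0 : H 𝕜) 1

def SG : Type := {f : B 𝕜 → B 𝕜 // (∃ n, ∀ x, (f x : H 𝕜) = shift n x) ∨ ∃ c, ∀ x, f x = c}

noncomputable instance : TopologicalSpace (SG 𝕜) := instTopologicalSpaceSubtype

instance : T2Space (SG 𝕜) := inferInstanceAs (T2Space (Subtype _))

instance : Semigroup (SG 𝕜) where
  mul f g := ⟨f.1 ∘ g.1, by
    rcases f.2 with ⟨m, hm⟩ | ⟨c, hc⟩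
    · rcases g.2 with ⟨n, hn⟩ | ⟨d, hd⟩
      · exact Or.inl ⟨m + n, fun x => by rw [Function.comp, hm, hn, shift_shift]⟩
      · exact Or.inr ⟨f.1 d, fun x => by rw [Function.comp, hd]⟩
    · exact Or.inr ⟨c, fun x => hc _⟩⟩
  mul_assoc _ _ _ := rfl

variable {𝕜}

lemma mul_val (f g : SG 𝕜) : (f * g).1 = f.1 ∘ g.1 := rfl

lemma nonexp (f : SG 𝕜) (x y : B 𝕜) : ‖(f.1 x : H 𝕜) - f.1 y‖ ≤ ‖(x : H 𝕜) - y‖ := by
  rcases f.2 with ⟨m, hm⟩ | ⟨c, hc⟩
  · rw [hm, hm, ← map_sub]; exact shift_norm _ _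
  · rw [hc, hc]; simp

lemma SG_cont (f : SG 𝕜) : Continuous f.1 := by
  apply LipschitzWith.continuous (K := 1)
  apply LipschitzWith.of_dist_le_mul
  intro x y
  simpa [Subtype.dist_eq, dist_eq_norm] using nonexp f x y

lemma ev_cont (x : B 𝕜) : Continuous (fun f : SG 𝕜 => f.1 x) :=
  (continuous_apply x).comp continuous_subtype_val

instance : SeparatelyContinuousMul (SG 𝕜) where
  continuous_const_mul := fun {a} =>
    continuous_induced_rng.2 (continuous_pi (fun x => (SG_cont a).comp (ev_cont x)))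
  continuous_mul_const := fun {a} =>
    continuous_induced_rng.2 (continuous_pi (fun x => ev_cont (a.1 x)))

def cst (c : B 𝕜) : SG 𝕜 := ⟨fun _ => c, Or.inr ⟨c, fun _ => rfl⟩⟩

noncomputable def sh (n : ℕ) : SG 𝕜 :=
  ⟨fun x => ⟨shift n x, by
    have := x.2
    simp only [Metric.mem_closedBall, dist_zero_right] at this ⊢
    exact (shift_norm n _).trans this⟩, Or.inl ⟨n, fun _ => rfl⟩⟩

noncomputable def zz : B 𝕜 := ⟨0, by simp⟩

lemma sh_tendsto : Tendsto (fun n => (sh n : SG 𝕜)) atTop (𝓝 (cst zz)) := by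
  apply tendsto_subtype_rng.2
  rw [tendsto_pi_nhds]
  intro x
  apply tendsto_subtype_rng.2
  exact shift_tendsto (x : H 𝕜)

lemma luc_const (f : SG 𝕜 →ᵇ ℂ) (hf : IsLUC f) (c : B 𝕜) : f (cst c) = f (cst zz) := by
  replace hf : Continuous (fun s : SG 𝕜 => lTrans s f) := hf
  have h1 := (hf.tendsto _).comp sh_tendsto
  rw [tendsto_iff_dist_tendsto_zero] at h1
  apply eq_of_dist_eq_zero
  apply le_antisymm _ dist_nonneg
  refine ge_of_tendsto' h1 (fun n => ?_)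
  obtain ⟨y, hy, hy2⟩ := shift_surj n (c : H 𝕜)
  have hyB : y ∈ B 𝕜 := by
    have := c.2
    simp only [Metric.mem_closedBall, dist_zero_right] at this ⊢
    exact hy.trans this
  have e1 : sh n * cst ⟨y, hyB⟩ = cst c := by
    apply Subtype.ext
    funext x
    exact Subtype.ext hy2
  have e2 : cst zz * cst ⟨y, hyB⟩ = (cst zz : SG 𝕜) := rfl
  have := BoundedContinuousFunction.dist_coe_le_dist (f := lTrans (sh n) (f : SG 𝕜 →ᵇ ℂ))
    (g := lTrans (cst zz) (f : SG 𝕜 →ᵇ ℂ)) (cst ⟨y, hyB⟩)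
  simpa [lTrans, e1, e2] using this

lemma SG_ELA : IsELA (SG 𝕜) :=
  ⟨fun f => f (cst zz), fun _ _ _ _ => rfl, fun _ _ _ => rfl,
    fun f _ => f.norm_coe_le_norm _, rfl, fun s f hf => luc_const f hf (s.1 zz),
    fun _ _ _ _ => rfl⟩

end Example

lemma good (𝕜 : Type) [RCLike 𝕜] : IsGoodRep 𝕜 (B 𝕜) (fun s : SG 𝕜 => s.1) := by
  refine ⟨weak_closed, fun _ _ _ => rfl, nonexp, ?_, ?_, ⟨zz, ?_⟩⟩
  · intro s
    rw [continuous_induced_rng]
    have h0 : @Continuous (B 𝕜) _ (weakTop 𝕜 (B 𝕜)) _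
        (fun x : B 𝕜 => toWeakSpace 𝕜 (H 𝕜) (x : H 𝕜)) := continuous_induced_dom
    rcases s.2 with ⟨m, hm⟩ | ⟨c, hc⟩
    · have h1 := @Continuous.comp _ _ _ (weakTop 𝕜 (B 𝕜)) _ _ _ _
        (WeakSpace.map (shift (𝕜 := 𝕜) m)).continuous h0
      convert h1 using 1
      funext x
      simp only [Function.comp, hm]
      rfl
    · have h1 := @continuous_const (B 𝕜) _ (weakTop 𝕜 (B 𝕜)) _ (toWeakSpace 𝕜 (H 𝕜) (c : H 𝕜))
      convert h1 using 1
      funext x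
      simp only [Function.comp, hc]
      rfl
  · intro x
    rw [continuous_induced_rng]
    exact (toWeakSpaceCLM 𝕜 (H 𝕜)).continuous.comp (continuous_subtype_val.comp (ev_cont x))
  · have := weak_compact (𝕜 := 𝕜) (Set.range (fun s : SG 𝕜 => (s.1 zz : H 𝕜)))
      (by rintro _ ⟨s, rfl⟩; exact (s.1 zz).2)
    rw [← Set.range_comp] at this
    exact this

/-- Negative answer, even for the closed unit ball `C` of a Hilbert space. -/
theorem result (𝕜 : Type) [RCLike 𝕜] :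
    ¬ ∀ (S : Type) [Semigroup S] [TopologicalSpace S] [T2Space S] [SeparatelyContinuousMul S]
        (E : Type) [NormedAddCommGroup E] [InnerProductSpace 𝕜 E] [CompleteSpace E]
        (C : Set E) (T : S → C → C),
        IsELA S → C = Metric.closedBall 0 1 → IsGoodRep 𝕜 C T → ∃ z : C, ∀ s, T s z = z := by
  intro h
  obtain ⟨z, hz⟩ := h (SG 𝕜) (H 𝕜) (B 𝕜) (fun s => s.1) SG_ELA rfl (good 𝕜)
  let e : B 𝕜 := ⟨lp.single 2 0 (1 : 𝕜), by simp [lp.norm_single]⟩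
  have h1 : zz = z := hz (cst zz)
  have h2 : e = z := hz (cst e)
  have h3 : (e : H 𝕜) 0 = (zz : B 𝕜).1 0 := by rw [h1, h2]
  simp [e, zz] at h3

end Pool.Agent.Results.MP_155d71_an.NoFixedPoint
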